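import Pool.Agent.Y217.HK.Inst

/-!
# The fusion lemma
-/

set_option autoImplicit false

namespace Pool.Agent.Y657.HK

open MeasureTheory Filter Topology Set
open Pool.Agent.Y217.HK

/-- initial segments of length `n` -/
abbrev T (n : ℕ) : Type := ∀ i : Fin n, Fin (L i + 1)

/-- extension by zero -/
def ext (n : ℕ) (t : T n) : Z := fun i => if h : i < n then t ⟨i, h⟩ else 0

/-- the initial segment of length `n` -/
def res (n : ℕ) (s : Z) : T n := fun i => s i

lemma splice_congr {n : ℕ} {s s' : Z} (h : ∀ i, i < n → s i = s' i) (y : Z) :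
    splice n s y = splice n s' y := by
  funext i
  unfold splice
  split_ifs with hi
  · exact h i hi
  · rfl

lemma splice_ext (n : ℕ) (s y : Z) : splice n (ext n (res n s)) y = splice n s y := by
  refine splice_congr (fun i hi => ?_) y
  simp only [ext, dif_pos hi, res]

lemma splice_lt {n i : ℕ} (s y : Z) (h : i < n) : splice n s y i = s i := if_pos h

lemma splice_ge {n i : ℕ} (s y : Z) (h : n ≤ i) : splice n s y i = y i := if_neg (not_lt.2 h)

lemma splice_zero (s y : Z) : splice 0 s y = y := by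
  funext i
  exact splice_ge s y (Nat.zero_le i)

lemma splice_splice (k n : ℕ) (t z y : Z) :
    splice k t (splice n z y) = splice (max k n) (splice k t z) y := by
  funext i
  by_cases h1 : i < k
  · rw [splice_lt _ _ h1, splice_lt _ _ (lt_of_lt_of_le h1 (le_max_left _ _)), splice_lt _ _ h1]
  · rw [not_lt] at h1
    rw [splice_ge _ _ h1]
    by_cases h2 : i < n
    · rw [splice_lt _ _ h2, splice_lt _ _ (lt_of_lt_of_le h2 (le_max_right _ _)),
        splice_ge _ _ h1]
    · rw [not_lt] at h2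
      rw [splice_ge _ _ h2, splice_ge _ _ (max_le h1 h2)]

lemma splice_cont (n : ℕ) (s : Z) : Continuous (splice n s) := by
  refine continuous_pi fun i => ?_
  unfold splice
  split_ifs
  · exact continuous_const
  · exact continuous_apply i

lemma splice_cont' (n : ℕ) (y : Z) : Continuous fun s => splice n s y := by
  refine continuous_pi fun i => ?_
  unfold splice
  split_ifs
  · exact continuous_apply i
  · exact continuous_const

/-- points of an open set have a cylinder neighbourhood -/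
lemma cyl {U : Set Z} (hU : IsOpen U) {x : Z} (hx : x ∈ U) :
    ∃ l : ℕ, ∀ w : Z, (∀ i, i < l → w i = x i) → w ∈ U := by
  obtain ⟨V, ⟨y, n, rfl⟩, hxV, hVU⟩ :=
    (PiNat.isTopologicalBasis_cylinders (fun n => Fin (L n + 1))).exists_subset_of_mem_open hx hU
  refine ⟨n, fun w hw => hVU ?_⟩
  rw [PiNat.mem_cylinder_iff] at hxV ⊢
  intro i hi
  rw [hw i hi, hxV i hi]

lemma open_eq (n : ℕ) (s : Z) : IsOpen {w : Z | ∀ i, i < n → w i = s i} := by
  have : {w : Z | ∀ i, i < n → w i = s i} = PiNat.cylinder s n := by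
    ext w
    rw [PiNat.mem_cylinder_iff]
    rfl
  rw [this]
  exact PiNat.isOpen_cylinder _ s n

lemma splice_open (n : ℕ) (s : Z) : IsOpenMap (splice n s) := by
  intro U hU
  have : splice n s '' U = ⋃ y ∈ U, ({w : Z | ∀ i, i < n → w i = s i} ∩ splice n y ⁻¹' U) := by
    ext w
    simp only [Set.mem_image, Set.mem_iUnion, Set.mem_inter_iff, Set.mem_ofPred_eq,
      Set.mem_preimage, exists_prop]
    constructor
    · rintro ⟨y, hy, rfl⟩
      refine ⟨y, hy, fun i hi => splice_lt _ _ hi, ?_⟩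
      have : splice n y (splice n s y) = y := by
        funext i
        by_cases hi : i < n
        · rw [splice_lt _ _ hi]
        · rw [not_lt] at hi
          rw [splice_ge _ _ hi, splice_ge _ _ hi]
      rw [this]
      exact hy
    · rintro ⟨y, _, h1, h2⟩
      refine ⟨splice n y w, h2, ?_⟩
      funext i
      by_cases hi : i < n
      · rw [splice_lt _ _ hi, h1 i hi]
      · rw [not_lt] at hi
        rw [splice_ge _ _ hi, splice_ge _ _ hi]
  rw [this]
  exact isOpen_biUnion fun y _ => (open_eq n s).inter (hU.preimage (splice_cont n y))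

lemma splice_res {A : Set Z} (hA : A ∈ residual Z) (n : ℕ) (s : Z) :
    {y | splice n s y ∈ A} ∈ residual Z :=
  tendsto_residual_of_isOpenMap (splice_cont n s) (splice_open n s) hA

/-- the points all of whose finite modifications are in `A` -/
def Cl (A : Set Z) : Set Z := {y | ∀ (n : ℕ) (s : Z), splice n s y ∈ A}

lemma Cl_res {A : Set Z} (hA : A ∈ residual Z) : Cl A ∈ residual Z := by
  have h1 : (⋂ p : (n : ℕ) × T n, {y | splice p.1 (ext p.1 p.2) y ∈ A}) ∈ residual Z :=
    (countable_iInter_mem).2 fun p => splice_res hA p.1 _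
  refine Filter.mem_of_superset h1 fun y hy n s => ?_
  rw [Set.mem_iInter] at hy
  have := hy ⟨n, res n s⟩
  rw [Set.mem_ofPred_eq, splice_ext] at this
  exact this

lemma Cl_sub {A : Set Z} : Cl A ⊆ A := by
  intro y hy
  have := hy 0 y
  rwa [splice_zero] at this

lemma Cl_splice {A : Set Z} {y : Z} (hy : y ∈ Cl A) (n : ℕ) (z : Z) : splice n z y ∈ Cl A := by
  intro k t
  rw [splice_splice]
  exact hy _ _

/-- measurable sets are open up to a meagre set -/
lemma open_mod {A : Set Z} (h : MeasurableSet A) :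
    ∃ O : Set Z, IsOpen O ∧ {y | y ∈ A ↔ y ∈ O} ∈ residual Z := by
  obtain ⟨O, hO, hA⟩ := h.residualEq_isOpen
  refine ⟨O, hO, ?_⟩
  filter_upwards [hA] with y hy
  exact (iff_of_eq hy)

lemma Tl_splice (n : ℕ) (s s' y : Z) : Tl (A := fun n => Fin (L n + 1))
    (splice n s y) (splice n s' y) :=
  ⟨n, fun i hi => by rw [splice_ge _ _ hi, splice_ge _ _ hi]⟩

/-- the sets `F n M` -/
def FF (b : Set ℕ) (ψ : Z → Z) (n M : ℕ) : Set Z :=
  {y | ∀ s s' : Z, ∀ m, M ≤ m → m ∈ b →
    (1 + ds (ψ (splice n s y)) (ψ (splice n s' y)) m) ^ n ≤ L m}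

lemma FF_meas (b : Set ℕ) (ψ : Z → Z) (hψ : Measurable ψ) (n M : ℕ) :
    MeasurableSet (FF b ψ n M) := by
  have h1 : FF b ψ n M = ⋂ p : T n × T n, ⋂ m : {m : ℕ // M ≤ m ∧ m ∈ b},
      {y | (1 + ds (ψ (splice n (ext n p.1) y)) (ψ (splice n (ext n p.2) y)) m.1) ^ n ≤ L m.1} := by
    ext y
    simp only [Set.mem_iInter, Set.mem_ofPred_eq, FF]
    constructor
    · intro h p m
      exact h _ _ m.1 m.2.1 m.2.2
    · intro h s s' m hm hmb
      have := h (res n s, res n s') ⟨m, hm, hmb⟩
      simpa only [splice_ext] using this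
  rw [h1]
  refine MeasurableSet.iInter fun p => MeasurableSet.iInter fun m => ?_
  have h2 : Measurable fun y : Z => (ψ (splice n (ext n p.1) y) m.1,
      ψ (splice n (ext n p.2) y) m.1) := by
    refine Measurable.prodMk ?_ ?_
    · exact (measurable_pi_apply m.1).comp (hψ.comp (splice_cont n _).measurable)
    · exact (measurable_pi_apply m.1).comp (hψ.comp (splice_cont n _).measurable)
  have h3 : MeasurableSet {q : Fin (L m.1 + 1) × Fin (L m.1 + 1) |
      (1 + (((q.1 : ℕ) - (q.2 : ℕ)) + ((q.2 : ℕ) - (q.1 : ℕ)))) ^ n ≤ L m.1} :=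
    MeasurableSet.of_discrete
  exact h2 h3

lemma FF_mono {b : Set ℕ} {ψ : Z → Z} {n M M' : ℕ} (h : M ≤ M') : FF b ψ n M ⊆ FF b ψ n M' :=
  fun _ hy s s' m hm hmb => hy s s' m (h.trans hm) hmb

theorem fus : Pool.Agent.Y217.HK.JFus := by
  classical
  intro b ψ hψ D hD hR
  have hO : ∀ (m : ℕ) (v : Fin (L m + 1)),
      ∃ O : Set Z, IsOpen O ∧ {y | ψ y m = v ↔ y ∈ O} ∈ residual Z := by
    intro m v
    exact open_mod (A := {y | ψ y m = v})
      (((measurable_pi_apply m).comp hψ) (measurableSet_singleton v))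
  choose O hOo hOr using hO
  have hV : ∀ n M, ∃ V : Set Z, IsOpen V ∧ {y | y ∈ FF b ψ n M ↔ y ∈ V} ∈ residual Z :=
    fun n M => open_mod (FF_meas b ψ hψ n M)
  choose V hVo hVr using hV
  set E0 : Set Z := (D ∩ ⋂ p : (m : ℕ) × Fin (L m + 1), {y | ψ y p.1 = p.2 ↔ y ∈ O p.1 p.2}) ∩
    ⋂ p : ℕ × ℕ, {y | y ∈ FF b ψ p.1 p.2 ↔ y ∈ V p.1 p.2} with hE0d
  have hE0 : E0 ∈ residual Z :=
    inter_mem (inter_mem hD (countable_iInter_mem.2 fun p => hOr _ _))
      (countable_iInter_mem.2 fun p => hVr _ _)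
  have hE0D : ∀ y ∈ E0, y ∈ D := fun y hy => hy.1.1
  have hE0O : ∀ y ∈ E0, ∀ m v, (ψ y m = v ↔ y ∈ O m v) := fun y hy m v =>
    (Set.mem_iInter.1 hy.1.2 ⟨m, v⟩ : _)
  have hE0V : ∀ y ∈ E0, ∀ n M, (y ∈ FF b ψ n M ↔ y ∈ V n M) := fun y hy n M =>
    (Set.mem_iInter.1 hy.2 (n, M) : _)
  have hE' : Cl E0 ∈ residual Z := Cl_res hE0
  obtain ⟨G, hGE, hG, hGd⟩ := mem_residual.1 hE'
  obtain ⟨U, hUo, hGU⟩ := isGδ_iff_eq_iInter_nat.1 hG
  have hGr : G ∈ residual Z := residual_of_dense_Gδ hG hGd
  have hzz : (Cl G ∩ Cl E0).Nonempty := (dense_of_mem_residual (inter_mem (Cl_res hGr) hE')).nonempty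
  obtain ⟨z, hzG, hzE⟩ := hzz
  have hM' : ∀ n, ∃ M', z ∈ FF b ψ n M' := by
    intro n
    have h1 : ∀ p : T n × T n, ∃ N, ∀ m, N ≤ m → m ∈ b →
        (1 + ds (ψ (splice n (ext n p.1) z)) (ψ (splice n (ext n p.2) z)) m) ^ n ≤ L m := by
      intro p
      exact hR _ (hE0D _ (hzE n _)) _ (hE0D _ (hzE n _)) (Tl_splice n _ _ z) n
    choose N hN using h1
    refine ⟨Finset.univ.sup N, fun s s' m hm hmb => ?_⟩
    have h2 := hN (res n s, res n s') m ((Finset.le_sup (Finset.mem_univ _)).trans hm) hmb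
    simpa only [splice_ext] using h2
  choose M' hM' using hM'
  set M : ℕ → ℕ := fun n => n + ∑ j ∈ Finset.range (n + 1), M' j with hM
  have hMmono : Monotone M := by
    intro a c hac
    refine add_le_add hac (Finset.sum_le_sum_of_subset ?_)
    exact Finset.range_subset_range.2 (by omega)
  have hMM' : ∀ n, M' n ≤ M n := by
    intro n
    have h1 : M' n ≤ ∑ j ∈ Finset.range (n + 1), M' j :=
      Finset.single_le_sum (fun _ _ => Nat.zero_le _) (Finset.mem_range.2 (Nat.lt_succ_self n))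
    exact h1.trans (Nat.le_add_left _ _)
  have hl : ∀ n, ∃ l, n ≤ l ∧ (∀ s w : Z, (∀ i, i < l → w i = splice n s z i) →
      (∀ k, k ≤ n → w ∈ U k) ∧ ∀ m, m < M n → w ∈ O m (ψ (splice n s z) m)) ∧
      ∀ w : Z, (∀ i, i < l → w i = z i) → w ∈ V n (M' n) := by
    intro n
    have h1 : ∀ t : T n, ∃ l : ℕ, ∀ w : Z, (∀ i, i < l → w i = splice n (ext n t) z i) →
        w ∈ (⋂ k ∈ Finset.range (n + 1), U k) ∩
          ⋂ m ∈ Finset.range (M n), O m (ψ (splice n (ext n t) z) m) := by
      intro t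
      refine cyl (IsOpen.inter (isOpen_biInter_finset fun k _ => hUo k)
        (isOpen_biInter_finset fun m _ => hOo m _)) ⟨?_, ?_⟩
      · have h2 : splice n (ext n t) z ∈ G := hzG n _
        rw [hGU, Set.mem_iInter] at h2
        simp only [Set.mem_iInter]
        exact fun k _ => h2 k
      · simp only [Set.mem_iInter]
        exact fun m _ => (hE0O _ (hzE n _) m _).1 rfl
    choose lt hlt using h1
    obtain ⟨lc, hlc⟩ := cyl (hVo n (M' n)) ((hE0V z (Cl_sub hzE) n (M' n)).1 (hM' n))
    refine ⟨max n (max (Finset.univ.sup lt) lc), le_max_left _ _, fun s w hw => ?_, fun w hw => ?_⟩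
    · have h3 := hlt (res n s) w (by
        intro i hi
        rw [splice_ext]
        refine hw i (lt_of_lt_of_le hi ?_)
        exact (Finset.le_sup (f := lt) (Finset.mem_univ _)).trans
          ((le_max_left _ _).trans (le_max_right _ _)))
      rw [splice_ext] at h3
      obtain ⟨h4, h5⟩ := h3
      simp only [Set.mem_iInter] at h4 h5
      exact ⟨fun k hk => h4 k (Finset.mem_range.2 (by omega)),
        fun m hm => h5 m (Finset.mem_range.2 hm)⟩
    · exact hlc w fun i hi => hw i (lt_of_lt_of_le hi ((le_max_right _ _).trans (le_max_right _ _)))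
  choose l hln hls hlv using hl
  have hagree : ∀ (y : Z) (n : ℕ), (∀ i, n ≤ i → i < l n → y i = z i) →
      ∀ i, i < l n → y i = splice n y z i := by
    intro y n h i hi
    by_cases hin : i < n
    · rw [splice_lt _ _ hin]
    · rw [not_lt] at hin
      rw [splice_ge _ _ hin, h i hin hi]
  refine ⟨Cl E0, z, l, M, fun y hy => hE0D y (Cl_sub hy), hMmono, hln,
    fun n => Nat.le_add_right _ _, ?_, ?_, ?_⟩
  · intro y hy
    refine hGE ?_
    rw [hGU, Set.mem_iInter]
    intro k
    obtain ⟨n, hkn, hn⟩ := hy k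
    exact (hls n y y (hagree y n hn)).1 k hkn
  · intro y hy y' hy' n h1 h2 m hm
    have h3 := (hls n y y (hagree y n h2)).2 m hm
    have h4 := (hls n y y' (fun i hi => by rw [← h1 i hi]; exact hagree y n h2 i hi)).2 m hm
    rw [← hE0O y (Cl_sub hy) m] at h3
    rw [← hE0O y' (Cl_sub hy') m] at h4
    rw [h3, h4]
  · intro y hy y' hy' n h1 h2 m hm hmb
    have hw : splice n z y ∈ Cl E0 := Cl_splice hy n z
    have hwV : splice n z y ∈ V n (M' n) := by
      refine hlv n _ fun i hi => ?_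
      by_cases hin : i < n
      · rw [splice_lt _ _ hin]
      · rw [not_lt] at hin
        rw [splice_ge _ _ hin, h2 i hin hi]
    have hwF : splice n z y ∈ FF b ψ n (M' n) := (hE0V _ (Cl_sub hw) n (M' n)).2 hwV
    have h3 := hwF y y' m ((hMM' n).trans hm) hmb
    have e1 : splice n y (splice n z y) = y := by
      funext i
      by_cases hin : i < n
      · rw [splice_lt _ _ hin]
      · rw [not_lt] at hin
        rw [splice_ge _ _ hin, splice_ge _ _ hin]
    have e2 : splice n y' (splice n z y) = y' := by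
      funext i
      by_cases hin : i < n
      · rw [splice_lt _ _ hin]
      · rw [not_lt] at hin
        rw [splice_ge _ _ hin, splice_ge _ _ hin, h1 i hin]
    rw [e1, e2] at h3
    exact h3

end Pool.Agent.Y657.HK
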